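import Pool.Agent.Q90.JS.Cone

/-!
# JS-10: comparison of the jump sizes
-/

set_option autoImplicit false

namespace Pool.Agent.Q90.JS

open MeasureTheory Filter Topology Set Metric Pool.Agent.Q61.JS
open scoped ENNReal NNReal

lemma meas_st {N d : ℕ} (a b : E d) (ν x : E N) : Measurable (st a b ν x) := by
  unfold st
  refine Measurable.ite ?_ measurable_const measurable_const
  exact measurableSet_lt measurable_const (by fun_prop)

lemma hyp_null {n : ℕ} (x ν : E (n + 1)) (hν : ‖ν‖ = 1) :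
    volume {y : E (n + 1) | inner ℝ (y - x) ν = 0} = 0 := by
  set S : Submodule ℝ (E (n + 1)) := LinearMap.ker (innerSL ℝ ν).toLinearMap with hS
  have hS1 : S ≠ ⊤ := by
    intro h
    have : ν ∈ S := by rw [h]; trivial
    rw [hS, LinearMap.mem_ker] at this
    simp only [ContinuousLinearMap.coe_coe, innerSL_apply_apply] at this
    rw [real_inner_self_eq_norm_sq, hν] at this
    norm_num at this
  have h0 := Measure.addHaar_submodule volume S hS1
  have h1 : {y : E (n + 1) | inner ℝ (y - x) ν = 0} = (fun y => y - x) ⁻¹' (S : Set (E (n + 1))) := by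
    ext y
    simp only [mem_setOf_eq, mem_preimage, SetLike.mem_coe, hS, LinearMap.mem_ker,
      ContinuousLinearMap.coe_coe, innerSL_apply_apply]
    rw [real_inner_comm]
  rw [h1, (measurePreserving_sub_right volume x).measure_preimage_emb
    (MeasurableEquiv.subRight x).measurableEmbedding, h0]

theorem t_CMP : S_CMP := by
  intro n d u x a b a' b' ν ν' ρ δ hu hρ hδ hν' hJ hN
  obtain ⟨hab, hν, hJ1, hJ2⟩ := hJ
  set e : E (n + 1) → ℝ≥0∞ := fun y => ‖u y - st a b ν x y‖ₑ + ‖u y - st a' b' ν' x y‖ₑ with he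
  set R : E (n + 1) → E (n + 1) := fun y => (2 : ℝ) • x - y with hR
  have hem1 : AEMeasurable (fun y => ‖u y - st a b ν x y‖ₑ) volume :=
    (hu.sub (meas_st a b ν x).aestronglyMeasurable).enorm
  have hem : AEMeasurable e volume :=
    hem1.add (hu.sub (meas_st a' b' ν' x).aestronglyMeasurable).enorm
  have hRx : ∀ y, R y - x = -(y - x) := by
    intro y
    simp only [hR, two_smul]
    abel
  have hmp : MeasurePreserving R volume volume := Measure.measurePreserving_sub_left volume _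
  have hRemb : MeasurableEmbedding R := (MeasurableEquiv.subLeft ((2 : ℝ) • x)).measurableEmbedding
  -- pointwise inequality
  have hpt : ∀ᵐ y ∂(volume : Measure (E (n + 1))), ‖a - b‖ₑ ≤ ‖a' - b'‖ₑ + (e y + e (R y)) := by
    have hz : ∀ᵐ y ∂(volume : Measure (E (n + 1))), inner ℝ (y - x) ν ≠ 0 := by
      rw [ae_iff]
      simp only [not_not]
      exact hyp_null x ν hν
    filter_upwards [hz] with y hy
    have e1 : inner ℝ (R y - x) ν = -inner ℝ (y - x) ν := by rw [hRx, inner_neg_left]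
    have e1' : inner ℝ (R y - x) ν' = -inner ℝ (y - x) ν' := by rw [hRx, inner_neg_left]
    have e2 : ‖a - b‖ₑ = ‖st a b ν x y - st a b ν x (R y)‖ₑ := by
      unfold st
      rcases lt_or_gt_of_ne hy with h | h
      · rw [if_neg (not_lt.2 h.le), if_pos (by rw [e1]; linarith), ← enorm_neg, neg_sub]
      · rw [if_pos h, if_neg (by rw [e1]; linarith)]
    have e3 : ‖st a' b' ν' x y - st a' b' ν' x (R y)‖ₑ ≤ ‖a' - b'‖ₑ := by
      unfold st
      rcases lt_trichotomy (inner ℝ (y - x) ν') 0 with h | h | h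
      · rw [if_neg (not_lt.2 h.le), if_pos (by rw [e1']; linarith), ← enorm_neg, neg_sub]
      · rw [if_neg (by rw [h]; exact lt_irrefl _), if_neg (by rw [e1', h]; norm_num), sub_self,
          enorm_zero]
        exact zero_le
      · rw [if_pos h, if_neg (by rw [e1']; linarith)]
    have e4 : st a b ν x y - st a b ν x (R y) =
        (st a' b' ν' x y - st a' b' ν' x (R y)) +
        (((u y - st a' b' ν' x y) - (u y - st a b ν x y)) +
        ((u (R y) - st a b ν x (R y)) - (u (R y) - st a' b' ν' x (R y)))) := by abel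
    rw [e2, e4]
    refine (enorm_add_le _ _).trans (add_le_add e3 ?_)
    refine (enorm_add_le _ _).trans (add_le_add ?_ ?_)
    · exact enorm_sub_le.trans (le_of_eq (add_comm _ _))
    · exact enorm_sub_le
  -- integrate
  have hint : ∀ r : ℝ, 0 < r → ‖a - b‖ₑ * ENNReal.ofReal (om (n + 1) * r ^ (n + 1)) ≤
      ‖a' - b'‖ₑ * ENNReal.ofReal (om (n + 1) * r ^ (n + 1)) + 2 * ∫⁻ y in ball x r, e y := by
    intro r hr
    have hpre : R ⁻¹' ball x r = ball x r := by
      ext y
      simp only [mem_preimage, mem_ball, dist_eq_norm]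
      rw [hRx, norm_neg]
    have i1 : ∫⁻ y in ball x r, e (R y) = ∫⁻ y in ball x r, e y := by
      have := hmp.setLIntegral_comp_preimage_emb hRemb e (ball x r)
      rwa [hpre] at this
    have heR : AEMeasurable (fun y => e (R y)) volume :=
      hem.comp_quasiMeasurePreserving hmp.quasiMeasurePreserving
    rw [← vol_ball x hr, ← setLIntegral_const, ← setLIntegral_const]
    calc ∫⁻ _ in ball x r, ‖a - b‖ₑ
        ≤ ∫⁻ y in ball x r, (‖a' - b'‖ₑ + (e y + e (R y))) :=
          lintegral_mono_ae (ae_restrict_of_ae hpt)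
      _ = (∫⁻ _ in ball x r, ‖a' - b'‖ₑ) + ((∫⁻ y in ball x r, e y) +
            ∫⁻ y in ball x r, e (R y)) := by
          rw [lintegral_add_left measurable_const, lintegral_add_left' hem.restrict]
      _ = _ := by rw [i1, two_mul]
  -- bound of the integral of `e`
  set I1 : ℝ → ℝ≥0∞ := fun r => ∫⁻ y in halfBall x ν r, ‖u y - a‖ₑ with hI1
  set I2 : ℝ → ℝ≥0∞ := fun r => ∫⁻ y in halfBall x (-ν) r, ‖u y - b‖ₑ with hI2
  have hE : ∀ r : ℝ, 0 < r → r ≤ ρ → ∫⁻ y in ball x r, e y ≤
      (I1 r + I2 r) + ENNReal.ofReal (δ * ‖a' - b'‖ * r ^ (n + 1)) := by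
    intro r hr hrρ
    rw [he, lintegral_add_left' hem1.restrict]
    refine add_le_add ?_ (hN r hr hrρ)
    have hsub : ball x r ⊆ (halfBall x ν r ∪ halfBall x (-ν) r) ∪
        {y : E (n + 1) | inner ℝ (y - x) ν = 0} := by
      intro y hy
      rcases lt_trichotomy (inner ℝ (y - x) ν) 0 with h | h | h
      · refine Or.inl (Or.inr ⟨hy, ?_⟩)
        rw [inner_neg_right]; linarith
      · exact Or.inr h
      · exact Or.inl (Or.inl ⟨hy, h⟩)
    have hm : ∀ w : E (n + 1), MeasurableSet (halfBall x w r) := fun w => by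
      have h3 : MeasurableSet {y : E (n + 1) | 0 < inner ℝ (y - x) w} :=
        measurableSet_lt measurable_const (by fun_prop)
      exact measurableSet_ball.inter h3
    have hm1 := hm ν
    have hm2 := hm (-ν)
    refine (lintegral_mono_set hsub).trans ?_
    refine (lintegral_union_le _ _ _).trans ?_
    rw [setLIntegral_measure_zero _ _ (hyp_null x ν hν), add_zero]
    refine (lintegral_union_le _ _ _).trans (add_le_add (le_of_eq ?_) (le_of_eq ?_))
    · refine setLIntegral_congr_fun hm1 fun y hy => ?_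
      simp only [st, if_pos hy.2]
    · refine setLIntegral_congr_fun hm2 fun y hy => ?_
      have h3 := hy.2
      rw [inner_neg_right] at h3
      simp only [st]
      rw [if_neg (by linarith)]
  -- divide by r ^ (n+1)
  have hom := om_pos (n + 1)
  have hdiv : ∀ᶠ r in 𝓝[>] (0 : ℝ), ENNReal.ofReal (‖a - b‖ * om (n + 1)) ≤
      ENNReal.ofReal (‖a' - b'‖ * om (n + 1) + 2 * (δ * ‖a' - b'‖)) +
        2 * (I1 r / ENNReal.ofReal (r ^ (n + 1)) + I2 r / ENNReal.ofReal (r ^ (n + 1))) := by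
    filter_upwards [self_mem_nhdsWithin, nhdsWithin_le_nhds (Iic_mem_nhds hρ)] with r hr hrρ
    have hr0 : (0 : ℝ) < r := hr
    have hrp : 0 < r ^ (n + 1) := pow_pos hr0 _
    have hR0 : ENNReal.ofReal (r ^ (n + 1)) ≠ 0 := (ENNReal.ofReal_pos.2 hrp).ne'
    have hRt : ENNReal.ofReal (r ^ (n + 1)) ≠ ⊤ := ENNReal.ofReal_ne_top
    have h1 := (hint r hr0).trans (add_le_add_right (mul_le_mul_right (hE r hr0 hrρ) 2) _)
    have e5 : ‖a - b‖ₑ * ENNReal.ofReal (om (n + 1) * r ^ (n + 1)) =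
        ENNReal.ofReal (‖a - b‖ * om (n + 1)) * ENNReal.ofReal (r ^ (n + 1)) := by
      rw [← ofReal_norm, ← ENNReal.ofReal_mul (norm_nonneg _), ← ENNReal.ofReal_mul (by positivity),
        mul_assoc]
    have e6 : ‖a' - b'‖ₑ * ENNReal.ofReal (om (n + 1) * r ^ (n + 1)) +
        2 * ((I1 r + I2 r) + ENNReal.ofReal (δ * ‖a' - b'‖ * r ^ (n + 1))) =
        ENNReal.ofReal (‖a' - b'‖ * om (n + 1) + 2 * (δ * ‖a' - b'‖)) *
          ENNReal.ofReal (r ^ (n + 1)) + 2 * (I1 r + I2 r) := by
      have k1 : ‖a' - b'‖ₑ * ENNReal.ofReal (om (n + 1) * r ^ (n + 1)) =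
          ENNReal.ofReal (‖a' - b'‖ * om (n + 1)) * ENNReal.ofReal (r ^ (n + 1)) := by
        rw [← ofReal_norm, ← ENNReal.ofReal_mul (norm_nonneg _),
          ← ENNReal.ofReal_mul (by positivity), mul_assoc]
      have k2 : 2 * ENNReal.ofReal (δ * ‖a' - b'‖ * r ^ (n + 1)) =
          ENNReal.ofReal (2 * (δ * ‖a' - b'‖)) * ENNReal.ofReal (r ^ (n + 1)) := by
        have h2 : ∀ X : ℝ, (2 : ℝ≥0∞) * ENNReal.ofReal X = ENNReal.ofReal (2 * X) := by
          intro X
          rw [ENNReal.ofReal_mul (by norm_num), ENNReal.ofReal_ofNat 2]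
        rw [← ENNReal.ofReal_mul (by positivity : (0 : ℝ) ≤ 2 * (δ * ‖a' - b'‖)), h2]
        congr 1
        ring
      rw [ENNReal.ofReal_add (by positivity) (by positivity), k1, mul_add 2, k2]
      ring
    rw [e5, e6] at h1
    rw [← ENNReal.le_div_iff_mul_le (Or.inl hR0) (Or.inl hRt)] at h1
    refine h1.trans (le_of_eq ?_)
    rw [ENNReal.add_div, ENNReal.mul_div_cancel_right hR0 hRt, mul_div_assoc, ENNReal.add_div]
  have hlim : Tendsto (fun r : ℝ =>
      ENNReal.ofReal (‖a' - b'‖ * om (n + 1) + 2 * (δ * ‖a' - b'‖)) +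
        2 * (I1 r / ENNReal.ofReal (r ^ (n + 1)) + I2 r / ENNReal.ofReal (r ^ (n + 1))))
      (𝓝[>] 0) (𝓝 (ENNReal.ofReal (‖a' - b'‖ * om (n + 1) + 2 * (δ * ‖a' - b'‖)) +
        2 * (0 + 0))) :=
    tendsto_const_nhds.add (ENNReal.Tendsto.const_mul (hJ1.add hJ2) (Or.inr (by norm_num)))
  have hfin := ge_of_tendsto hlim hdiv
  rw [add_zero, mul_zero, add_zero, ENNReal.ofReal_le_ofReal_iff (by positivity)] at hfin
  have h7 : ‖a - b‖ ≤ ‖a' - b'‖ + 2 * δ / om (n + 1) * ‖a' - b'‖ := by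
    rw [← mul_le_mul_iff_left₀ hom]
    refine hfin.trans (le_of_eq ?_)
    field_simp
  have h8 : 2 * δ / om (n + 1) * ‖a' - b'‖ ≤ 4 * δ / om (n + 1) * ‖a' - b'‖ := by
    gcongr
    norm_num
  linarith

end Pool.Agent.Q90.JS
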