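import Pool.Agent.Q61.JS.Stm

/-!
# JS-3: the cone condition
-/

set_option autoImplicit false

namespace Pool.Agent.Q90.JS

open MeasureTheory Filter Topology Set Metric Pool.Agent.Q61.JS
open scoped ENNReal NNReal

lemma vol_ball {N : ℕ} (c : E N) {r : ℝ} (hr : 0 < r) :
    volume (ball c r) = ENNReal.ofReal (om N * r ^ N) := by
  rw [Measure.addHaar_ball_of_pos volume c hr, finrank_euclideanSpace_fin, om, mul_comm,
    ENNReal.ofReal_mul ENNReal.toReal_nonneg, ENNReal.ofReal_toReal measure_ball_lt_top.ne]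

lemma om_pos (N : ℕ) : 0 < om N :=
  ENNReal.toReal_pos (measure_ball_pos volume (0 : E N) one_pos).ne' measure_ball_lt_top.ne

lemma cone_aux {n d : ℕ} {u : E (n + 1) → E d} {a b : E d} {ν x x' : E (n + 1)}
    {ρ δ σ : ℝ} (hu : AEStronglyMeasurable u volume) (hab : a ≠ b) (hν : ‖ν‖ = 1)
    (hδ : 0 ≤ δ) (hσ : 0 ≤ σ) (hδσ : 2 ^ (2 * n + 3) * δ ≤ om (n + 1) * σ ^ (n + 1))
    (h1 : Near u a b ν x ρ δ) (h2 : Near u a b ν x' ρ δ) (hρ : 2 * ‖x' - x‖ ≤ ρ)
    (hs : 0 < inner ℝ (x' - x) ν) : inner ℝ (x' - x) ν ≤ σ * ‖x' - x‖ := by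
  set s : ℝ := inner ℝ (x' - x) ν with hsdef
  set D : ℝ := ‖x' - x‖ with hD
  have hsD : s ≤ D := by
    have := real_inner_le_norm (x' - x) ν
    rw [hν, mul_one] at this
    exact this
  have hD0 : 0 < D := hs.trans_le hsD
  set c : E (n + 1) := x + (s / 2) • ν with hc
  have hνν : inner ℝ ν ν = (1 : ℝ) := by rw [real_inner_self_eq_norm_sq, hν]; norm_num
  have hy : ∀ y ∈ ball c (s / 2), 0 < inner ℝ (y - x) ν ∧ inner ℝ (y - x') ν < 0 := by
    intro y hy
    rw [mem_ball, dist_eq_norm] at hy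
    have e1 : |inner ℝ (y - c) ν| < s / 2 := by
      refine lt_of_le_of_lt ?_ hy
      have := abs_real_inner_le_norm (y - c) ν
      rwa [hν, mul_one] at this
    have e2 : inner ℝ (y - x) ν = inner ℝ (y - c) ν + s / 2 := by
      have : y - x = (y - c) + (s / 2) • ν := by rw [hc]; abel
      rw [this, inner_add_left, real_inner_smul_left, hνν, mul_one]
    have e3 : inner ℝ (y - x') ν = inner ℝ (y - x) ν - s := by
      have : y - x' = (y - x) - (x' - x) := by abel
      rw [this, inner_sub_left]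
    obtain ⟨e4, e5⟩ := abs_lt.1 e1
    constructor
    · rw [e2]; linarith
    · rw [e3, e2]; linarith
  have hsub1 : ball c (s / 2) ⊆ ball x D := by
    intro y hy
    rw [mem_ball, dist_eq_norm] at hy ⊢
    have : y - x = (y - c) + (s / 2) • ν := by rw [hc]; abel
    rw [this]
    refine lt_of_le_of_lt (norm_add_le _ _) ?_
    rw [norm_smul, hν, mul_one, Real.norm_eq_abs, abs_of_pos (by linarith)]
    linarith
  have hsub2 : ball c (s / 2) ⊆ ball x' (2 * D) := by
    intro y hy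
    have h3 := hsub1 hy
    rw [mem_ball, dist_eq_norm] at h3 ⊢
    have : y - x' = (y - x) - (x' - x) := by abel
    rw [this]
    refine lt_of_le_of_lt (norm_sub_le _ _) ?_
    rw [← hD]
    linarith
  have i1 : ∫⁻ y in ball c (s / 2), ‖u y - a‖ₑ ≤ ENNReal.ofReal (δ * ‖a - b‖ * D ^ (n + 1)) := by
    refine le_trans ?_ (h1 D hD0 (by linarith))
    refine le_trans (le_of_eq ?_) (lintegral_mono_set hsub1)
    refine setLIntegral_congr_fun measurableSet_ball fun y hyB => ?_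
    simp only [st, if_pos (hy y hyB).1]
  have i2 : ∫⁻ y in ball c (s / 2), ‖u y - b‖ₑ ≤
      ENNReal.ofReal (δ * ‖a - b‖ * (2 * D) ^ (n + 1)) := by
    refine le_trans ?_ (h2 (2 * D) (by linarith) hρ)
    refine le_trans (le_of_eq ?_) (lintegral_mono_set hsub2)
    refine setLIntegral_congr_fun measurableSet_ball fun y hyB => ?_
    simp only [st, if_neg (not_lt.2 (hy y hyB).2.le)]
  have i3 : ‖a - b‖ₑ * volume (ball c (s / 2)) ≤
      ENNReal.ofReal (δ * ‖a - b‖ * D ^ (n + 1)) +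
        ENNReal.ofReal (δ * ‖a - b‖ * (2 * D) ^ (n + 1)) := by
    refine le_trans ?_ (add_le_add i1 i2)
    have hm : AEMeasurable (fun y => ‖u y - a‖ₑ) (volume.restrict (ball c (s / 2))) :=
      (hu.restrict.sub aestronglyMeasurable_const).enorm
    rw [← lintegral_add_left' hm, ← setLIntegral_const]
    refine lintegral_mono fun y => ?_
    have : a - b = (u y - b) - (u y - a) := by abel
    rw [this, add_comm (‖u y - a‖ₑ)]
    exact enorm_sub_le
  have hab' : 0 < ‖a - b‖ := norm_pos_iff.2 (sub_ne_zero.2 hab)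
  have e0 : ‖a - b‖ₑ = ENNReal.ofReal ‖a - b‖ := (ofReal_norm _).symm
  rw [vol_ball c (by linarith : 0 < s / 2), e0, ← ENNReal.ofReal_mul (norm_nonneg _),
    ← ENNReal.ofReal_add (by positivity) (by positivity)] at i3
  rw [ENNReal.ofReal_le_ofReal_iff (by positivity)] at i3
  have i4 : om (n + 1) * (s / 2) ^ (n + 1) ≤ δ * D ^ (n + 1) + δ * (2 * D) ^ (n + 1) := by
    refine le_of_mul_le_mul_left ?_ hab'
    refine i3.trans (le_of_eq ?_)
    ring
  have i5 : om (n + 1) * s ^ (n + 1) ≤ om (n + 1) * (σ * D) ^ (n + 1) := by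
    have e6 : s ^ (n + 1) = 2 ^ (n + 1) * (s / 2) ^ (n + 1) := by
      rw [← mul_pow]; congr 1; ring
    rw [e6]
    calc om (n + 1) * (2 ^ (n + 1) * (s / 2) ^ (n + 1))
        = 2 ^ (n + 1) * (om (n + 1) * (s / 2) ^ (n + 1)) := by ring
      _ ≤ 2 ^ (n + 1) * (δ * D ^ (n + 1) + δ * (2 * D) ^ (n + 1)) :=
        mul_le_mul_of_nonneg_left i4 (by positivity)
      _ = 2 ^ (n + 1) * (1 + 2 ^ (n + 1)) * δ * D ^ (n + 1) := by rw [mul_pow]; ring
      _ ≤ 2 ^ (n + 1) * (2 ^ (n + 1) + 2 ^ (n + 1)) * δ * D ^ (n + 1) := by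
        gcongr
        exact one_le_pow₀ one_le_two
      _ = 2 ^ (2 * n + 3) * δ * D ^ (n + 1) := by
        have : (2 : ℝ) ^ (2 * n + 3) = 2 ^ (n + 1) * (2 ^ (n + 1) + 2 ^ (n + 1)) := by
          rw [← two_mul, ← pow_succ', ← pow_add]; congr 1; ring
        rw [this]
      _ ≤ om (n + 1) * σ ^ (n + 1) * D ^ (n + 1) :=
        mul_le_mul_of_nonneg_right hδσ (by positivity)
      _ = om (n + 1) * (σ * D) ^ (n + 1) := by rw [mul_pow]; ring
  have i6 : s ^ (n + 1) ≤ (σ * D) ^ (n + 1) := le_of_mul_le_mul_left i5 (om_pos _)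
  exact le_of_pow_le_pow_left₀ (Nat.succ_ne_zero n) (by positivity) i6

theorem t_CONE : S_CONE := by
  intro n d u a b ν x x' ρ δ σ hu hab hν hδ hσ hδσ h1 h2 hρ
  rcases lt_trichotomy 0 (inner ℝ (x' - x) ν) with h | h | h
  · rw [abs_of_pos h]
    exact cone_aux hu hab hν hδ hσ hδσ h1 h2 hρ h
  · rw [← h, abs_zero]; positivity
  · have e1 : inner ℝ (x - x') ν = -inner ℝ (x' - x) ν := by
      rw [← neg_sub, inner_neg_left]
    have e2 : ‖x - x'‖ = ‖x' - x‖ := norm_sub_rev _ _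
    rw [abs_of_neg h, ← e1, ← e2]
    exact cone_aux hu hab hν hδ hσ hδσ h2 h1 (by rw [e2]; exact hρ) (by rw [e1]; linarith)

end Pool.Agent.Q90.JS
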