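import Pool.Agent.Q61.JS.Stm

/-!
# JS-15: the Gagliardo energy through translations
-/

set_option autoImplicit false

namespace Pool.Agent.Q90.JS

open MeasureTheory Filter Topology Set Metric Pool.Agent.Q61.JS
open scoped ENNReal NNReal

lemma gag_meas {n d : ℕ} (q : ℝ) (v : E (n + 1) → E d) (hv : StronglyMeasurable v) :
    gag q v = ∫⁻ h, dq q v h / ‖h‖ₑ ^ (n + 2) := by
  have hvm : Measurable v := hv.measurable
  unfold gag dq
  have hF : Measurable (fun p : E (n + 1) × E (n + 1) =>
      ‖v p.1 - v p.2‖ₑ ^ q / ‖p.1 - p.2‖ₑ ^ (n + 2)) := by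
    refine Measurable.div ?_ ?_
    · exact (((hvm.comp measurable_fst).sub (hvm.comp measurable_snd)).enorm).pow_const q
    · exact ((measurable_fst.sub measurable_snd).enorm).pow_const (n + 2)
  rw [lintegral_lintegral_swap hF.aemeasurable]
  have h1 : ∀ y : E (n + 1), ∫⁻ x, ‖v x - v y‖ₑ ^ q / ‖x - y‖ₑ ^ (n + 2) =
      ∫⁻ h, ‖v (y + h) - v y‖ₑ ^ q / ‖h‖ₑ ^ (n + 2) := by
    intro y
    rw [← lintegral_add_left_eq_self (fun x => ‖v x - v y‖ₑ ^ q / ‖x - y‖ₑ ^ (n + 2)) y]
    refine lintegral_congr fun h => ?_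
    rw [add_sub_cancel_left]
  simp_rw [h1]
  have hG : Measurable (fun p : E (n + 1) × E (n + 1) =>
      ‖v (p.1 + p.2) - v p.1‖ₑ ^ q / ‖p.2‖ₑ ^ (n + 2)) := by
    refine Measurable.div ?_ ?_
    · exact (((hvm.comp (measurable_fst.add measurable_snd)).sub
        (hvm.comp measurable_fst)).enorm).pow_const q
    · exact (measurable_snd.enorm).pow_const (n + 2)
  rw [lintegral_lintegral_swap hG.aemeasurable]
  refine lintegral_congr fun h => ?_
  simp_rw [div_eq_mul_inv]
  rw [lintegral_mul_const]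
  exact (((hvm.comp (measurable_id.add_const h)).sub hvm).enorm).pow_const q

theorem t_GAG : S_GAG := by
  intro n d q v hq hv
  have hw := hv.stronglyMeasurable_mk
  set w := hv.mk v with hwdef
  have hae : v =ᵐ[volume] w := hv.ae_eq_mk
  have h1 : gag q v = gag q w := by
    unfold gag
    refine lintegral_congr_ae ?_
    filter_upwards [hae] with x hx
    refine lintegral_congr_ae ?_
    filter_upwards [hae] with y hy
    rw [hx, hy]
  have h2 : ∀ h : E (n + 1), dq q v h = dq q w h := by
    intro h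
    unfold dq
    refine lintegral_congr_ae ?_
    have h3 : (fun y => v (y + h)) =ᵐ[volume] fun y => w (y + h) :=
      (measurePreserving_add_right volume h).quasiMeasurePreserving.ae_eq_comp hae
    filter_upwards [hae, h3] with y hy hy'
    rw [hy, hy']
  rw [h1, gag_meas q w hw]
  simp_rw [h2]

end Pool.Agent.Q90.JS
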