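import Pool.Agent.Q90.JS.Cone

/-!
# JS-5: size of sets in narrow cones
-/

set_option autoImplicit false

namespace Pool.Agent.Q90.JS

open MeasureTheory Filter Topology Set Metric Pool.Agent.Q61.JS
open scoped ENNReal NNReal

theorem t_HUP (hP : S_PROJ) (hN : S_HN) : S_HUP := by
  intro n K ν z σ l r hν hσ hl hlσ hr hK hKz
  obtain ⟨P, hP1, -⟩ := hP n ν hν
  obtain ⟨hN1, -, -⟩ := hN n
  -- expansion on `K`
  have h1 : ∀ x ∈ K, ∀ x' ∈ K, ‖x' - x‖ ≤ l * ‖P x' - P x‖ := by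
    intro x hx x' hx'
    have e1 := hP1 (x' - x)
    rw [map_sub] at e1
    have e2 := hK x hx x' hx'
    have e3 : (inner ℝ (x' - x) ν) ^ 2 ≤ (σ * ‖x' - x‖) ^ 2 := by
      rw [← sq_abs]
      exact pow_le_pow_left₀ (abs_nonneg _) e2 2
    have e4 : ‖x' - x‖ ^ 2 ≤ (l * ‖P x' - P x‖) ^ 2 := by
      have e5 : (1 - σ ^ 2) * ‖x' - x‖ ^ 2 ≤ ‖P x' - P x‖ ^ 2 := by nlinarith
      calc ‖x' - x‖ ^ 2 = 1 * ‖x' - x‖ ^ 2 := (one_mul _).symm
        _ ≤ l ^ 2 * (1 - σ ^ 2) * ‖x' - x‖ ^ 2 :=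
          mul_le_mul_of_nonneg_right hlσ (sq_nonneg _)
        _ = l ^ 2 * ((1 - σ ^ 2) * ‖x' - x‖ ^ 2) := by ring
        _ ≤ l ^ 2 * ‖P x' - P x‖ ^ 2 := mul_le_mul_of_nonneg_left e5 (sq_nonneg _)
        _ = (l * ‖P x' - P x‖) ^ 2 := by ring
    exact le_of_sq_le_sq e4 (by positivity)
  have h2 : ∀ v : E (n + 1), ‖P v‖ ≤ ‖v‖ := by
    intro v
    refine le_of_sq_le_sq ?_ (norm_nonneg _)
    have := hP1 v
    nlinarith [sq_nonneg (inner ℝ v ν : ℝ)]
  set g : E n → E (n + 1) := Function.invFunOn P K with hg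
  have hinj : InjOn P K := by
    intro x hx x' hx' h
    have := h1 x' hx' x hx
    rw [h, sub_self, norm_zero, mul_zero] at this
    exact sub_eq_zero.1 (norm_le_zero_iff.1 this)
  have hgK : g '' (P '' K) = K := by
    ext x
    constructor
    · rintro ⟨p, hp, rfl⟩
      exact Function.invFunOn_mem hp
    · intro hx
      refine ⟨P x, ⟨x, hx, rfl⟩, ?_⟩
      exact hinj (Function.invFunOn_mem ⟨x, hx, rfl⟩) hx (Function.invFunOn_eq ⟨x, hx, rfl⟩)
  have hlip : LipschitzOnWith l.toNNReal g (P '' K) := by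
    refine LipschitzOnWith.of_dist_le_mul ?_
    rintro p hp q hq
    have m1 : g p ∈ K := Function.invFunOn_mem hp
    have m2 : g q ∈ K := Function.invFunOn_mem hq
    have v1 : P (g p) = p := Function.invFunOn_eq hp
    have v2 : P (g q) = q := Function.invFunOn_eq hq
    have := h1 (g q) m2 (g p) m1
    rw [v1, v2] at this
    rw [dist_eq_norm, dist_eq_norm, Real.coe_toNNReal l hl.le]
    exact this
  have h3 := hlip.hausdorffMeasure_image_le (d := (n : ℝ)) (Nat.cast_nonneg n)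
  rw [hgK] at h3
  have h4 : P '' K ⊆ ball (P z) r := by
    rintro _ ⟨x, hx, rfl⟩
    have := hKz hx
    rw [mem_ball, dist_eq_norm] at this ⊢
    rw [← map_sub]
    exact (h2 _).trans_lt this
  have h5 : hc n * (μH[(n : ℝ)] : Measure (E n)) (P '' K) ≤ ENNReal.ofReal (om n * r ^ n) := by
    rw [← vol_ball (P z) hr, ← hN1, Measure.smul_apply, smul_eq_mul]
    exact mul_le_mul_right (measure_mono h4) _
  have h6 : ((l.toNNReal : ℝ≥0∞)) ^ (n : ℝ) = ENNReal.ofReal (l ^ n) := by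
    rw [ENNReal.rpow_natCast, ENNReal.ofReal_pow hl.le]
    rfl
  rw [surf, Measure.smul_apply, smul_eq_mul]
  calc hc n * (μH[(n : ℝ)] : Measure (E (n + 1))) K
      ≤ hc n * (((l.toNNReal : ℝ≥0∞)) ^ (n : ℝ) * (μH[(n : ℝ)] : Measure (E n)) (P '' K)) :=
        mul_le_mul_right h3 _
    _ = ENNReal.ofReal (l ^ n) * (hc n * (μH[(n : ℝ)] : Measure (E n)) (P '' K)) := by
        rw [h6]; ring
    _ ≤ ENNReal.ofReal (l ^ n) * ENNReal.ofReal (om n * r ^ n) := mul_le_mul_right h5 _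
    _ = ENNReal.ofReal (l ^ n * om n * r ^ n) := by
        rw [← ENNReal.ofReal_mul (by positivity)]; congr 1; ring

end Pool.Agent.Q90.JS
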